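import Pool.Agent.Run7.h324.LR

/-! The strong coding lemma for prewellorderings of length less than `ω₂` in `L(ℝ)`. -/

open Set Ordinal Run7.h324

namespace Pool.Agent.Results.MP_3b60c8_lc.StrongCoding

/-- Assume that every set of reals in `L(ℝ)` is determined. Let `g` be the rank map of a
prewellordering of the reals in `L(ℝ)` of length `lam`, let `T` be a nonempty `lam`-splitting tree
in `L(ℝ)`, and let `A` be a set of ordinals below `lam` which is in `L(ℝ)` an image of `ω₁`, or any
set of ordinals below `lam` in case `lam ≤ ω₁`. Then there is a nonempty tree `T' ⊆ T` which is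
(boldface) `Σ¹₂` and splits at every ordinal in `A`. With `A = lam` this is the strong coding lemma
for the prewellorderings of length less than `ω₂`. -/
theorem result (hAD : ADLR) {g : B → Ordinal.{0}} {lam : Ordinal.{0}} (hg : NormLR g lam)
    {T : Set (List B)} (hT : IsTree T) (hTL : InLR {z | dec z ∈ T}) (hs : Splits g (Iio lam) T)
    {A : Set Ordinal.{0}} (hA : A ⊆ Iio lam) (hA' : ImageLR g A ∨ lam ≤ ω₁) :
    ∃ T' ⊆ T, IsTree T' ∧ Splits g A T' ∧ Sigma12 {z | dec z ∈ T'} := by
  have key : ∀ A : Set Ordinal.{0}, A ⊆ Iio lam → ImageLR g A →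
      ∃ T' ⊆ T, IsTree T' ∧ Splits g A T' ∧ Sigma12 {z | dec z ∈ T'} := by
    rintro A hA ⟨E, hE, hEL⟩
    obtain ⟨T', h1, h2, h3, h4, c0, h5⟩ := main_local PClass_InLR (fun S hS => hAD S hS) hEL hTL hT.1
      (fun q hq α hα => hs q hq (E α) (hA (hE ▸ mem_image_of_mem E hα)))
    refine ⟨T', h1, ⟨h2, h3⟩, fun q hq α hα => ?_, ?_⟩
    · rw [← hE] at hα
      obtain ⟨β, hβ, rfl⟩ := hα
      exact h4 q hq β hβ
    · have h6 := s12_Run (X := B) c0 (n := fun z => z 0) (x := fun z i j => z (Nat.pair i j + 1))
        (measurable_pi_apply 0)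
        (measurable_pi_lambda _ fun i => measurable_pi_lambda _ fun j => measurable_pi_apply _)
      have h7 := h6 id measurable_id
      convert h7 using 1
      ext z
      exact h5 z
  rcases hA' with hA' | hlam
  · exact key A hA hA'
  · have h0 : 0 < lam := by
      have : g (fun _ => 0) ∈ Iio lam := hg.1 ▸ mem_range_self _
      exact (bot_le (a := g fun _ => 0)).trans_lt this
    obtain ⟨T', h1, h2, h3, h4⟩ := key (Iio lam) subset_rfl
      ⟨fun β => if β < lam then β else 0, by
        ext α
        constructor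
        · rintro ⟨β, _, rfl⟩
          by_cases hβ : β < lam
          · simp [hβ]
          · simpa [hβ] using h0
        · intro hα
          exact ⟨α, lt_of_lt_of_le hα hlam, by simp [show α < lam from hα]⟩,
      nice_rank PClass_InLR hg.1 hg.2⟩
    exact ⟨T', h1, h2, fun q hq α hα => h3 q hq α (hA hα), h4⟩

end Pool.Agent.Results.MP_3b60c8_lc.StrongCoding
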